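import Pool.Agent.Helper34.D4.Tr
import Pool.Agent.Helper11.D4.EX1

/-!
# Project D4: functions whose divisor is supported on a homogeneous divisor are homogeneous

`isW_of_mul`: the factors of a homogeneous element of `R` are homogeneous.

`mem_away`: if `φ` has no pole at the prime divisors which are not zeros of `s`, then `φ s ^ N` lies
in `R` for some `N` (apply `S_EX1` to `R[1 / s]`).

`isW_of_supp`: if moreover `φ` has no zero there and `s` is homogeneous, then `φ` is homogeneous.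
-/

set_option autoImplicit false

namespace Pool.Agent.Helper34.D4

open Module Pool.Agent.Helper37.SD Pool.Agent.Helper20.TS Pool.Agent.Helper88.D4

section Lin

variable {V : Type} [AddCommGroup V] [Module ℂ V] {A : V →ₗ[ℂ] V}

theorem hsp_neg_iff {P : ℝ → Prop} {x : V} (hx : x ∈ Hsp (-A) ⊤ P) :
    x ∈ Hsp A ⊤ (fun c => P (-c)) := by
  induction hx using Submodule.span_induction with
  | mem y hy =>
    obtain ⟨_, c, hc, h⟩ := hy
    refine mem_hsp (c := -c) Submodule.mem_top (by rwa [neg_neg]) ?_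
    have h1 : A y = -((c : ℂ) • y) := by rw [← h, LinearMap.neg_apply, neg_neg]
    rw [h1, Complex.ofReal_neg, neg_smul]
  | zero => exact Submodule.zero_mem _
  | add x y _ _ h h' => exact Submodule.add_mem _ h h'
  | smul z x _ h => exact Submodule.smul_mem _ z h

theorem exists_low {x : V} (hx : x ≠ 0) {P : ℝ → Prop} (h : x ∈ Hsp A ⊤ P) :
    ∃ (a : ℝ) (y : V), y ≠ 0 ∧ A y = (a : ℂ) • y ∧ x - y ∈ Hsp A ⊤ (fun c => a < c) := by
  obtain ⟨a, y, _, _, h3, h4, h5⟩ := exists_lead hx h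
  exact ⟨a, y, h3, h4, hsp_mono le_rfl (fun c hc => hc.2) h5⟩

theorem exists_high {x : V} (hx : x ≠ 0) {P : ℝ → Prop} (h : x ∈ Hsp A ⊤ P) :
    ∃ (a : ℝ) (y : V), y ≠ 0 ∧ A y = (a : ℂ) • y ∧ x - y ∈ Hsp A ⊤ (fun c => c < a) := by
  have h0 : x ∈ Hsp (-A) ⊤ (fun c => P (-c)) := by
    have h1 : x ∈ Hsp (-(-A)) ⊤ P := by rwa [neg_neg]
    exact hsp_neg_iff h1
  obtain ⟨a, y, h3, h4, h5⟩ := exists_low hx h0
  refine ⟨-a, y, h3, ?_, hsp_mono le_rfl (fun c hc => ?_) (hsp_neg_iff h5)⟩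
  · have h6 : A y = -((a : ℂ) • y) := by rw [← h4, LinearMap.neg_apply, neg_neg]
    rw [h6, Complex.ofReal_neg, neg_smul]
  · have : a < -c := hc
    linarith

/-- The lowest and the highest component have the same degree. -/
theorem eig_of_low_high {x : V} (hx : x ≠ 0) {a a' : ℝ} {y y' : V} (hy : A y = (a : ℂ) • y)
    (hxy : x - y ∈ Hsp A ⊤ (fun c => a < c)) (hy' : A y' = (a' : ℂ) • y')
    (hxy' : x - y' ∈ Hsp A ⊤ (fun c => c < a')) : a ≤ a' ∧ (a' ≤ a → A x = (a : ℂ) • x) := by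
  have h1 : x ∈ Hsp A ⊤ (fun c => a ≤ c) := by
    have e : x = (x - y) + y := by abel
    rw [e]
    exact Submodule.add_mem _ (hsp_mono le_rfl (fun c hc => le_of_lt hc) hxy)
      (mem_hsp Submodule.mem_top le_rfl hy)
  have h2 : x ∈ Hsp A ⊤ (fun c => c ≤ a') := by
    have e : x = (x - y') + y' := by abel
    rw [e]
    exact Submodule.add_mem _ (hsp_mono le_rfl (fun c hc => le_of_lt hc) hxy')
      (mem_hsp Submodule.mem_top le_rfl hy')
  obtain ⟨f, hf⟩ := exists_dec h1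
  obtain ⟨g, hg⟩ := exists_dec h2
  have hfg := hf.unique hg
  have hs : f.support.Nonempty := by
    rw [Finsupp.support_nonempty_iff]
    rintro rfl
    exact hx (by rw [← hf.sum, Finsupp.sum_zero_index])
  obtain ⟨c, hc⟩ := hs
  have hc' := Finsupp.mem_support_iff.mp hc
  have h3 := hf.prop c hc'
  have h4 := hg.prop c (hfg ▸ hc')
  refine ⟨h3.trans h4, fun haa => ?_⟩
  have h5 : ∀ b, f b ≠ 0 → b = a := by
    intro b hb
    have h6 := hf.prop b hb
    have h7 := hg.prop b (hfg ▸ hb)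
    exact le_antisymm (h7.trans haa) h6
  have h8 : x = f a := by
    rw [← hf.sum, Finsupp.sum]
    by_cases ha : f a = 0
    · rw [ha]
      refine Finset.sum_eq_zero fun b hb => ?_
      have hb' := Finsupp.mem_support_iff.mp hb
      rw [h5 b hb'] at hb'
      exact absurd ha hb'
    · refine Finset.sum_eq_single a (fun b hb hba => ?_) (fun h => ?_)
      · exact absurd (h5 b (Finsupp.mem_support_iff.mp hb)) hba
      · exact absurd (Finsupp.mem_support_iff.mpr ha) h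
  rw [h8]
  exact hf.eig a

end Lin

variable {K : Type} [Field K] [Algebra ℂ K] {R : Subalgebra ℂ K}

theorem low_mul {D : Derivation ℂ K K} {x y x0 y0 z : K} {a b c : ℝ} (hz0 : z ≠ 0)
    (hx0 : x0 ≠ 0) (hy0 : y0 ≠ 0) (hx : D x0 = (a : ℂ) • x0) (hy : D y0 = (b : ℂ) • y0)
    (hxx : x - x0 ∈ Hsp (D : K →ₗ[ℂ] K) ⊤ (fun c => a < c))
    (hyy : y - y0 ∈ Hsp (D : K →ₗ[ℂ] K) ⊤ (fun c => b < c)) (hxy : x * y = z)
    (hz : D z = (c : ℂ) • z) : a + b = c := by
  refine lead_unique (A := (D : K →ₗ[ℂ] K)) (x := z) (mul_ne_zero hx0 hy0) hz0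
    (eig_mul hx hy) hz ?_ ?_
  · have e : z - x0 * y0 = x0 * (y - y0) + ((x - x0) * y0 + (x - x0) * (y - y0)) := by
      rw [← hxy]; ring
    rw [e]
    have h1 : x0 ∈ Hsp (D : K →ₗ[ℂ] K) ⊤ (fun c => a ≤ c) :=
      mem_hsp Submodule.mem_top le_rfl hx
    have h2 : y0 ∈ Hsp (D : K →ₗ[ℂ] K) ⊤ (fun c => b ≤ c) :=
      mem_hsp Submodule.mem_top le_rfl hy
    refine Submodule.add_mem _ (hsp_mul_top ?_ h1 hyy) (Submodule.add_mem _
      (hsp_mul_top ?_ hxx h2) (hsp_mul_top ?_ hxx hyy))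
    · intro p q hp hq; linarith
    · intro p q hp hq; linarith
    · intro p q hp hq; linarith
  · rw [sub_self]
    exact Submodule.zero_mem _

theorem high_mul {D : Derivation ℂ K K} {x y x0 y0 z : K} {a b c : ℝ} (hz0 : z ≠ 0)
    (hx0 : x0 ≠ 0) (hy0 : y0 ≠ 0) (hx : D x0 = (a : ℂ) • x0) (hy : D y0 = (b : ℂ) • y0)
    (hxx : x - x0 ∈ Hsp (D : K →ₗ[ℂ] K) ⊤ (fun c => c < a))
    (hyy : y - y0 ∈ Hsp (D : K →ₗ[ℂ] K) ⊤ (fun c => c < b)) (hxy : x * y = z)
    (hz : D z = (c : ℂ) • z) : a + b = c := by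
  have hneg : ∀ {w : K} {e : ℝ}, D w = (e : ℂ) • w → (-D) w = ((-e : ℝ) : ℂ) • w := by
    intro w e h
    rw [Derivation.neg_apply, h, Complex.ofReal_neg, neg_smul]
  have hh : ∀ {w : K} {e : ℝ}, w ∈ Hsp (D : K →ₗ[ℂ] K) ⊤ (fun c => c < e) →
      w ∈ Hsp ((-D : Derivation ℂ K K) : K →ₗ[ℂ] K) ⊤ (fun c => -e < c) := by
    intro w e h
    have h1 : (D : K →ₗ[ℂ] K) = -((-D : Derivation ℂ K K) : K →ₗ[ℂ] K) := by
      ext w
      show D w = -((-D : Derivation ℂ K K) w)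
      rw [Derivation.neg_apply, neg_neg]
    rw [h1] at h
    refine hsp_mono le_rfl (fun c hc => ?_) (hsp_neg_iff h)
    have : -c < e := hc
    linarith
  have h1 := low_mul hz0 hx0 hy0 (hneg hx) (hneg hy) (hh hxx) (hh hyy) hxy (hneg hz)
  linarith

/-- the factors of an eigenvector -/
theorem eig_of_mul {D : Derivation ℂ K K} {P : ℝ → Prop} {x y z : K} {c : ℝ}
    (hx : x ∈ Hsp (D : K →ₗ[ℂ] K) ⊤ P) (hy : y ∈ Hsp (D : K →ₗ[ℂ] K) ⊤ P) (hz0 : z ≠ 0)
    (hxy : x * y = z) (hz : D z = (c : ℂ) • z) : ∃ a : ℝ, D x = (a : ℂ) • x := by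
  have hx0 : x ≠ 0 := by
    rintro rfl
    exact hz0 (by rw [← hxy, zero_mul])
  have hy0 : y ≠ 0 := by
    rintro rfl
    exact hz0 (by rw [← hxy, mul_zero])
  obtain ⟨a, x1, h1, h2, h3⟩ := exists_low hx0 hx
  obtain ⟨b, y1, h4, h5, h6⟩ := exists_low hy0 hy
  obtain ⟨a', x2, h7, h8, h9⟩ := exists_high hx0 hx
  obtain ⟨b', y2, h10, h11, h12⟩ := exists_high hy0 hy
  have e1 : a + b = c := low_mul hz0 h1 h4 h2 h5 h3 h6 hxy hz
  have e2 : a' + b' = c := high_mul hz0 h7 h10 h8 h11 h9 h12 hxy hz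
  obtain ⟨e3, e4⟩ := eig_of_low_high hx0 h2 h3 h8 h9
  obtain ⟨e5, _⟩ := eig_of_low_high hy0 h5 h6 h11 h12
  exact ⟨a, e4 (by linarith)⟩

section Torus

variable {ξ : Derivation ℂ K K} {r : ℕ} {H : Fin r → Derivation ℂ K K} {c : Fin r → ℝ}

theorem tor_hsp (hT : Tor R ξ H c) (i : Fin r) {x : K} (hx : x ∈ R) :
    x ∈ Hsp (H i : K →ₗ[ℂ] K) ⊤ (fun b => ∃ n : ℤ, b = n) := by
  refine (Submodule.span_le.mpr ?_ : Submodule.span ℂ {y | y ∈ R ∧ ∃ m : Fin r → ℤ, IsW H m y} ≤ _)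
    (hT.span x hx)
  rintro y ⟨_, m, hm⟩
  refine mem_hsp (c := ((m i : ℤ) : ℝ)) Submodule.mem_top ⟨m i, rfl⟩ ?_
  show H i y = _
  rw [hm i]
  push_cast
  rfl

/-- the factors of a homogeneous element are homogeneous -/
theorem isW_of_mul (hT : Tor R ξ H c) {x y z : K} (hx : x ∈ R) (hy : y ∈ R) (hz0 : z ≠ 0)
    (hxy : x * y = z) {m : Fin r → ℤ} (hz : IsW H m z) : ∃ m' : Fin r → ℤ, IsW H m' x := by
  have hx0 : x ≠ 0 := by
    rintro rfl
    exact hz0 (by rw [← hxy, zero_mul])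
  have h1 : ∀ i, ∃ n : ℤ, H i x = ((n : ℤ) : ℂ) • x := by
    intro i
    have hz' : H i z = (((m i : ℤ) : ℝ) : ℂ) • z := by
      rw [hz i]
      push_cast
      rfl
    obtain ⟨a, ha⟩ := eig_of_mul (tor_hsp hT i hx) (tor_hsp hT i hy) hz0 hxy hz'
    obtain ⟨n, hn⟩ := prop_of_mem_hsp (A := (H i : K →ₗ[ℂ] K)) hx0 ha (tor_hsp hT i hx)
    refine ⟨n, ?_⟩
    rw [ha, hn]
    push_cast
    rfl
  choose m' hm' using h1
  exact ⟨m', hm'⟩

theorem IsW_mul {x y : K} {m m' : Fin r → ℤ} (hx : IsW H m x) (hy : IsW H m' y) :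
    IsW H (m + m') (x * y) := by
  intro i
  rw [Derivation.leibniz, hx i, hy i, smul_eq_mul, smul_eq_mul, mul_smul_comm, mul_smul_comm,
    mul_comm y x, Pi.add_apply, Int.cast_add, add_smul, add_comm]

theorem IsW_one : IsW H (0 : Fin r → ℤ) (1 : K) := by
  intro i
  rw [Derivation.map_one_eq_zero, Pi.zero_apply, Int.cast_zero, zero_smul]

theorem IsW_pow {x : K} {m : Fin r → ℤ} (hx : IsW H m x) (n : ℕ) :
    IsW H ((n : ℤ) • m) (x ^ n) := by
  induction n with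
  | zero =>
    rw [pow_zero, Nat.cast_zero, zero_smul]
    exact IsW_one
  | succ n ih =>
    rw [pow_succ, Nat.cast_succ, add_smul, one_smul]
    exact IsW_mul ih hx

theorem IsW_inv {x : K} {m : Fin r → ℤ} (hx0 : x ≠ 0) (hx : IsW H m x) : IsW H (-m) x⁻¹ := by
  intro i
  have h := der_div (H i) 1 x hx0
  rw [one_div, Derivation.map_one_eq_zero, mul_zero, one_mul, zero_sub, hx i] at h
  rw [h, Pi.neg_apply, Int.cast_neg, neg_smul, Algebra.smul_def, Algebra.smul_def]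
  field_simp

end Torus

/-- the algebra `R[1 / s]` -/
noncomputable def away (R : Subalgebra ℂ K) (s : K) : Subalgebra ℂ K := R ⊔ Algebra.adjoin ℂ {s⁻¹}

theorem mem_away_iff {s : K} (hs : s ∈ R) (hs0 : s ≠ 0) (x : K) :
    x ∈ away R s ↔ ∃ N : ℕ, x * s ^ N ∈ R := by
  constructor
  · let W : Subalgebra ℂ K :=
      { carrier := {x | ∃ N : ℕ, x * s ^ N ∈ R}
        mul_mem' := by
          rintro x y ⟨N, hN⟩ ⟨M, hM⟩
          refine ⟨N + M, ?_⟩
          have e : x * y * s ^ (N + M) = (x * s ^ N) * (y * s ^ M) := by ring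
          rw [e]
          exact R.mul_mem hN hM
        add_mem' := by
          rintro x y ⟨N, hN⟩ ⟨M, hM⟩
          refine ⟨N + M, ?_⟩
          have e : (x + y) * s ^ (N + M) = (x * s ^ N) * s ^ M + (y * s ^ M) * s ^ N := by ring
          rw [e]
          exact R.add_mem (R.mul_mem hN (R.pow_mem hs M)) (R.mul_mem hM (R.pow_mem hs N))
        algebraMap_mem' := fun a => ⟨0, by rw [pow_zero, mul_one]; exact R.algebraMap_mem a⟩ }
    have h1 : away R s ≤ W := by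
      refine sup_le (fun y hy => ⟨0, by rw [pow_zero, mul_one]; exact hy⟩) (Algebra.adjoin_le ?_)
      rintro y hy
      rw [Set.mem_singleton_iff] at hy
      subst hy
      exact ⟨1, by rw [pow_one, inv_mul_cancel₀ hs0]; exact R.one_mem⟩
    exact fun hx => h1 hx
  · rintro ⟨N, hN⟩
    have e : x = (x * s ^ N) * (s⁻¹) ^ N := by
      rw [mul_assoc, ← mul_pow, mul_inv_cancel₀ hs0, one_pow, mul_one]
    rw [e]
    exact (away R s).mul_mem ((le_sup_left : R ≤ away R s) hN) ((away R s).pow_mem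
      ((le_sup_right : Algebra.adjoin ℂ {s⁻¹} ≤ away R s)
        (Algebra.subset_adjoin (Set.mem_singleton _))) N)

theorem away_normal (hn : Normal R) {s : K} (hs : s ∈ R) (hs0 : s ≠ 0) : Normal (away R s) := by
  intro x hx
  obtain ⟨p, hp, hpx⟩ := hx
  -- a common denominator of the coefficients
  have h1 : ∃ N : ℕ, ∀ i ∈ Finset.range p.natDegree, ((p.coeff i : away R s) : K) * s ^ N ∈ R := by
    have h2 : ∀ i : ℕ, ∃ N : ℕ, ((p.coeff i : away R s) : K) * s ^ N ∈ R := fun i =>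
      (mem_away_iff hs hs0 _).mp (p.coeff i).2
    choose N hN using h2
    refine ⟨∑ i ∈ Finset.range p.natDegree, N i, fun i hi => ?_⟩
    obtain ⟨k, hk⟩ := Nat.exists_eq_add_of_le
      (Finset.single_le_sum (f := N) (fun _ _ => Nat.zero_le _) hi)
    rw [hk, pow_add, ← mul_assoc]
    exact R.mul_mem (hN i) (R.pow_mem hs k)
  obtain ⟨N, hN⟩ := h1
  rw [mem_away_iff hs hs0]
  refine ⟨N, hn _ ?_⟩
  -- `s ^ N x` is integral over `R`
  set n := p.natDegree with hnd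
  have hpe : x ^ n + ∑ i ∈ Finset.range n, ((p.coeff i : away R s) : K) * x ^ i = 0 := by
    rw [Polynomial.eval₂_eq_sum_range, Finset.sum_range_succ, ← hnd] at hpx
    have e : (algebraMap (away R s) K) (p.coeff n) = 1 := by
      have : p.coeff n = 1 := hp.coeff_natDegree
      rw [this, map_one]
    rw [e, one_mul, add_comm] at hpx
    exact hpx
  have hn0 : ∀ i ∈ Finset.range n, ((p.coeff i : away R s) : K) * s ^ (N * (n - i)) ∈ R := by
    intro i hi
    have h3 : n - i ≠ 0 := by have := Finset.mem_range.mp hi; omega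
    obtain ⟨k, hk⟩ := Nat.exists_eq_succ_of_ne_zero h3
    rw [hk, Nat.succ_eq_add_one, mul_add, mul_one, pow_add, mul_comm (s ^ (N * k)), ← mul_assoc]
    exact R.mul_mem (hN i hi) (R.pow_mem hs _)
  classical
  let q : ℕ → R := fun i => if h : i ∈ Finset.range n then
    ⟨((p.coeff i : away R s) : K) * s ^ (N * (n - i)), hn0 i h⟩ else 0
  have hq : ∀ i ∈ Finset.range n, ((q i : R) : K) =
      ((p.coeff i : away R s) : K) * s ^ (N * (n - i)) := by
    intro i hi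
    simp only [q, dif_pos hi]
  refine ⟨Polynomial.X ^ n + ∑ i ∈ Finset.range n, Polynomial.C (q i) * Polynomial.X ^ i, ?_, ?_⟩
  · refine Polynomial.monic_X_pow_add ?_
    refine lt_of_le_of_lt (Polynomial.degree_sum_le _ _) ?_
    rw [Finset.sup_lt_iff (by exact WithBot.bot_lt_coe n)]
    intro i hi
    exact lt_of_le_of_lt (Polynomial.degree_C_mul_X_pow_le _ _)
      (by exact_mod_cast Finset.mem_range.mp hi)
  · rw [Polynomial.eval₂_add, Polynomial.eval₂_X_pow, Polynomial.eval₂_finsetSum]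
    have h4 : ∀ i ∈ Finset.range n, Polynomial.eval₂ (algebraMap R K) (x * s ^ N)
        (Polynomial.C (q i) * Polynomial.X ^ i) =
        s ^ (N * n) * (((p.coeff i : away R s) : K) * x ^ i) := by
      intro i hi
      rw [Polynomial.eval₂_mul, Polynomial.eval₂_C, Polynomial.eval₂_X_pow]
      have h5 : (algebraMap R K) (q i) = ((p.coeff i : away R s) : K) * s ^ (N * (n - i)) := hq i hi
      have h6 : N * n = N * (n - i) + N * i := by
        have := Finset.mem_range.mp hi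
        rw [← mul_add]
        congr 1
        omega
      rw [h5, h6, pow_add, mul_pow, ← pow_mul]
      ring
    rw [Finset.sum_congr rfl h4, ← Finset.mul_sum, mul_pow, ← pow_mul]
    linear_combination (s ^ (N * n)) * hpe

theorem mem_away (hf : IsFrac R) (hfg : R.FG) (hn : Normal R) {s : K} (hs : s ∈ R) (hs0 : s ≠ 0)
    {φ : K} (hφ : ∀ u, PDiv R u → u.val s = 0 → u.Ge 0 φ) : ∃ N : ℕ, φ * s ^ N ∈ R := by
  classical
  by_contra hcon
  have h1 : φ ∉ away R s := fun h => hcon ((mem_away_iff hs hs0 φ).mp h)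
  have hle : R ≤ away R s := le_sup_left
  have hf' : IsFrac (away R s) := by
    intro x
    obtain ⟨a, ha, b, hb, hb0, e⟩ := hf x
    exact ⟨a, hle ha, b, hle hb, hb0, e⟩
  have hfg' : (away R s).FG := by
    obtain ⟨S, hS⟩ := hfg
    refine ⟨insert s⁻¹ S, ?_⟩
    rw [away, ← hS, ← Algebra.adjoin_union]
    congr 1
    rw [Finset.coe_insert, Set.union_comm]
    rfl
  obtain ⟨u, hu, hux⟩ := Pool.Agent.Helper11.D4.s_EX1 K (away R s) hf' hfg' (away_normal hn hs hs0) φ h1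
  have hus : u.val s = 0 := by
    have h2 : s⁻¹ ∈ away R s := (mem_away_iff hs hs0 _).mpr
      ⟨1, by rw [pow_one, inv_mul_cancel₀ hs0]; exact R.one_mem⟩
    have h3 := hu.nonneg _ h2 (inv_ne_zero hs0)
    have h4 := hu.nonneg _ (hle hs) hs0
    rw [u.val_inv hs0] at h3
    linarith
  have hpow : ∀ N : ℕ, u.val (s ^ N) = 0 := fun N => by
    rw [u.val_pow hs0, hus, mul_zero]
  have hp : PDiv R u := by
    refine ⟨hu.int, fun x hx => hu.nonneg x (hle hx), ?_, ?_⟩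
    · obtain ⟨p, hp, hp0, hp1⟩ := hu.unif
      obtain ⟨N, hN⟩ := (mem_away_iff hs hs0 p).mp hp
      exact ⟨p * s ^ N, hN, mul_ne_zero hp0 (pow_ne_zero N hs0), by
        rw [u.map_mul _ _ hp0 (pow_ne_zero N hs0), hpow, hp1, add_zero]⟩
    · intro x hx0 hx
      obtain ⟨t, ht, ht0, hut, htx⟩ := hu.loc x hx0 hx
      obtain ⟨N, hN⟩ := (mem_away_iff hs hs0 t).mp ht
      obtain ⟨M, hM⟩ := (mem_away_iff hs hs0 _).mp htx
      refine ⟨t * s ^ N * s ^ M, R.mul_mem hN (R.pow_mem hs M),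
        mul_ne_zero (mul_ne_zero ht0 (pow_ne_zero N hs0)) (pow_ne_zero M hs0), ?_, ?_⟩
      · rw [u.map_mul _ _ (mul_ne_zero ht0 (pow_ne_zero N hs0)) (pow_ne_zero M hs0),
          u.map_mul _ _ ht0 (pow_ne_zero N hs0), hpow, hpow, hut, add_zero, add_zero]
      · have e : t * s ^ N * s ^ M * x = (t * x * s ^ M) * s ^ N := by ring
        rw [e]
        exact R.mul_mem hM (R.pow_mem hs N)
  rcases hφ u hp hus with h2 | h2
  · refine h1 ?_
    rw [h2]
    exact (away R s).zero_mem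
  · exact absurd hux (not_lt.mpr h2)

/-- A function whose divisor is supported on a homogeneous divisor is homogeneous. -/
theorem isW_of_supp {ξ : Derivation ℂ K K} {r : ℕ} {H : Fin r → Derivation ℂ K K} {c : Fin r → ℝ}
    (hR : IsCone R ξ) (hn : Normal R) (hT : Tor R ξ H c) {s : K} (hs : s ∈ R) (hs0 : s ≠ 0)
    {m : Fin r → ℤ} (hsm : IsW H m s) {φ : K} (hφ0 : φ ≠ 0)
    (hφ : ∀ u, PDiv R u → u.val s = 0 → u.val φ = 0) :
    (∃ m' : Fin r → ℤ, IsW H m' φ) ∧ (∃ N : ℕ, φ * s ^ N ∈ R) ∧ ∃ N : ℕ, φ⁻¹ * s ^ N ∈ R := by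
  obtain ⟨N, hN⟩ := mem_away hR.frac hR.fg hn hs hs0 (φ := φ)
    (fun u hu h => Or.inr (hφ u hu h).ge)
  obtain ⟨M, hM⟩ := mem_away hR.frac hR.fg hn hs hs0 (φ := φ⁻¹) (fun u hu h => Or.inr (by
    rw [u.val_inv hφ0, hφ u hu h, neg_zero]))
  refine ⟨?_, ⟨N, hN⟩, ⟨M, hM⟩⟩
  have h1 : (φ * s ^ N) * (φ⁻¹ * s ^ M) = s ^ (N + M) := by
    rw [pow_add]
    field_simp
  obtain ⟨m', hm'⟩ := isW_of_mul hT hN hM (pow_ne_zero _ hs0) h1 (IsW_pow hsm (N + M))
  refine ⟨m' + -((N : ℤ) • m), ?_⟩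
  have e : φ = φ * s ^ N * (s ^ N)⁻¹ := by
    rw [mul_assoc, mul_inv_cancel₀ (pow_ne_zero N hs0), mul_one]
  rw [e]
  exact IsW_mul hm' (IsW_inv (pow_ne_zero N hs0) (IsW_pow hsm N))

end Pool.Agent.Helper34.D4
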