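import Pool.Agent.Helper88.D4.Stmts
import Pool.Agent.Helper20.TS.Nb
import Pool.Agent.Helper20.TS.N1

/-!
# Project D4, S_TR: regular invariant 1-forms vanish on the torus

`one_zero`: `R` is a normal cone whose degrees for `ζ` are natural numbers, `η` a regular 1-form
which is invariant under `ζ`, and `η ζ` is a constant.  Take homogeneous parameters `z` of degree
`N` (`exists_noether`) and the derivations `∂ j` of `K` with `∂ j (z i) = δ_ij`.  The trace of
`η (∂ j)` over `ℂ(z)` is in `ℂ[z]` (`trz_reg`) and of degree `-N`, so it is `0`; and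
`ζ = N ∑ z j ∂ j`, so the trace of the constant `η ζ` is `0`.

For a torus `H` take two one-parameter subgroups `ζ = ∑ n i H i` and `L ζ + H j` with positive
weights.
-/

set_option autoImplicit false

namespace Pool.Agent.Helper34.D4

open Module Pool.Agent.Helper37.SD Pool.Agent.Helper20.TS Pool.Agent.Helper88.D4

variable {K : Type} [Field K] [Algebra ℂ K] {R : Subalgebra ℂ K}

private theorem ec_inv (D : Derivation ℂ K K) {x : K} (hx : x ≠ 0) :
    D x⁻¹ = -(x⁻¹ * x⁻¹ * D x) := by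
  have h := der_div D 1 x hx
  rw [one_div, Derivation.map_one_eq_zero, mul_zero, one_mul, zero_sub] at h
  rw [h]
  field_simp

private theorem ec_field (D : Derivation ℂ K K) (S : Set K)
    (hS : ∀ x ∈ S, D x ∈ IntermediateField.adjoin ℂ S) (x : K)
    (hx : x ∈ IntermediateField.adjoin ℂ S) : D x ∈ IntermediateField.adjoin ℂ S := by
  induction hx using IntermediateField.adjoin_induction with
  | mem y hy => exact hS y hy
  | algebraMap c =>
    rw [Derivation.map_algebraMap]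
    exact zero_mem _
  | add x y _ _ hx hy =>
    rw [map_add]
    exact add_mem hx hy
  | inv x hx' hx =>
    by_cases h0 : x = 0
    · rw [h0, inv_zero, map_zero]
      exact zero_mem _
    · rw [ec_inv D h0]
      exact neg_mem (mul_mem (mul_mem (inv_mem hx') (inv_mem hx')) hx)
  | mul x y hx' hy' hx hy =>
    rw [Derivation.leibniz, smul_eq_mul, smul_eq_mul]
    exact add_mem (mul_mem hx' hy) (mul_mem hy' hx)

private theorem ec_alg (D : Derivation ℂ K K) (S : Set K)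
    (hS : ∀ x ∈ S, D x ∈ Algebra.adjoin ℂ S) (x : K)
    (hx : x ∈ Algebra.adjoin ℂ S) : D x ∈ Algebra.adjoin ℂ S := by
  induction hx using Algebra.adjoin_induction with
  | mem y hy => exact hS y hy
  | algebraMap c =>
    rw [Derivation.map_algebraMap]
    exact zero_mem _
  | add x y _ _ hx hy =>
    rw [map_add]
    exact add_mem hx hy
  | mul x y hx' hy' hx hy =>
    rw [Derivation.leibniz, smul_eq_mul, smul_eq_mul]
    exact add_mem (mul_mem hx' hy) (mul_mem hy' hx)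

private theorem ec_trz_sum {d : ℕ} {z : Fin d → K} {ι : Type} (s : Finset ι) (f : ι → K) :
    trz z (∑ i ∈ s, f i) = ∑ i ∈ s, trz z (f i) := by
  rw [trz, map_sum]
  exact map_sum (Fz z).val _ _

private theorem ec_trz_mul {d : ℕ} {z : Fin d → K} (a x : K) (ha : a ∈ Fz z) :
    trz z (a * x) = a * trz z x := by
  have h1 : a * x = (⟨a, ha⟩ : Fz z) • x := rfl
  rw [trz, h1, map_smul, smul_eq_mul]
  rfl

private theorem ec_trz_const {d : ℕ} {z : Fin d → K} (c : ℂ) :
    trz z (algebraMap ℂ K c) = algebraMap ℂ K ((finrank (Fz z) K : ℂ) * c) := by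
  have h1 : algebraMap ℂ K c = algebraMap (Fz z) K (algebraMap ℂ (Fz z) c) := rfl
  rw [trz, h1, Algebra.trace_algebraMap, map_mul, map_natCast, nsmul_eq_mul]
  rfl

theorem one_zero {ζ : Derivation ℂ K K} (h : NCone R ζ) (hnorm : Normal R) (η : Pool.Agent.Helper88.D4.One K)
    (hη : Reg1 R η) (hinv : ∀ D, ζ (η D) = η ⁅ζ, D⁆) (hc : Cst (η ζ)) : η ζ = 0 := by
  classical
  obtain ⟨d, N, z, hN, hz, hind, hint⟩ := exists_noether h
  have hfin := finite_Fz h.frac h.fg z hint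
  obtain ⟨D, hD⟩ := exists_zframe hind hfin
  have hzdeg : ∀ i, ζ (z i) = (N : K) * z i := by
    intro i
    rw [(hz i).2, Algebra.smul_def]
    congr 1
    simp
  have hzmem : ∀ i, z i ∈ Fz z := fun i => IntermediateField.subset_adjoin _ _ ⟨i, rfl⟩
  have hζF : ∀ x ∈ Fz z, ζ x ∈ Fz z := by
    refine ec_field ζ _ ?_
    rintro _ ⟨i, rfl⟩
    rw [hzdeg i]
    exact mul_mem (natCast_mem _ N) (hzmem i)
  obtain ⟨P, hPd⟩ : ∃ P : Fin d → Derivation ℂ K K, ∀ j, P j = (z j)⁻¹ • D j := ⟨_, fun j => rfl⟩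
  have hPz : ∀ i j, P j (z i) = if j = i then 1 else 0 := by
    intro i j
    rw [hPd, Derivation.smul_apply, hD.apply, smul_eq_mul]
    by_cases hij : j = i
    · rw [if_pos hij, if_pos hij, hij, inv_mul_cancel₀ (hD.ne i)]
    · rw [if_neg hij, if_neg hij, mul_zero]
  have hDP : ∀ j, D j = z j • P j := by
    intro j
    rw [hPd, smul_smul, mul_inv_cancel₀ (hD.ne j), one_smul]
  have hPA : ∀ j, ∀ p ∈ Algebra.adjoin ℂ (Set.range z), P j p ∈ Algebra.adjoin ℂ (Set.range z) := by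
    intro j
    refine ec_alg (P j) _ ?_
    rintro _ ⟨i, rfl⟩
    rw [hPz]
    split_ifs
    · exact one_mem _
    · exact zero_mem _
  have hcomm : ∀ j, ⁅ζ, P j⁆ = (-(N : K)) • P j := by
    intro j
    refine hD.ext fun i => ?_
    rw [Derivation.commutator_apply, hzdeg i, Derivation.smul_apply, Derivation.leibniz, hPz]
    have h1 : ζ (if j = i then (1 : K) else 0) = 0 := by
      split_ifs
      · exact Derivation.map_one_eq_zero _
      · exact map_zero _
    rw [h1, Derivation.map_natCast, smul_zero, add_zero, zero_sub, smul_eq_mul, neg_smul,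
      smul_eq_mul]
  -- the traces
  have htr : ∀ j, trz z (η (P j)) = 0 := by
    intro j
    have h1 : trz z (η (P j)) ∈ Algebra.adjoin ℂ (Set.range z) :=
      trz_reg h.frac h.fg hnorm z (fun i => (hz i).1) hind hint (P j) (hPA j) η hη
    have h2 : trz z (η (P j)) ∈ R := by
      refine (Algebra.adjoin_le ?_ : Algebra.adjoin ℂ (Set.range z) ≤ R) h1
      rintro _ ⟨k, rfl⟩
      exact (hz k).1
    have h3 : ζ (trz z (η (P j))) = ((-(N : ℝ) : ℝ) : ℂ) • trz z (η (P j)) := by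
      rw [← trz_der hfin ζ hζF, hinv, hcomm, map_smul, smul_eq_mul,
        ec_trz_mul _ _ (neg_mem (natCast_mem _ N)), Algebra.smul_def]
      congr 1
      simp
    by_contra h4
    have h5 := h.toIsCone.eig_nonneg h2 h4 h3
    have h6 : (0 : ℝ) < N := Nat.cast_pos.mpr hN
    linarith
  have h0 : trz z (η ζ) = 0 := by
    have hζ : ζ = ∑ j, (N : K) • D j := by
      conv_lhs => rw [hD.complete ζ]
      refine Finset.sum_congr rfl fun j _ => ?_
      rw [hzdeg j, mul_div_assoc, div_self (hD.ne j), mul_one]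
    have h1 : η ζ = ∑ j, ((N : K) * z j) * η (P j) := by
      conv_lhs => rw [hζ]
      rw [map_sum]
      refine Finset.sum_congr rfl fun j _ => ?_
      rw [hDP j, smul_smul, map_smul, smul_eq_mul]
    rw [h1, ec_trz_sum]
    refine Finset.sum_eq_zero fun j _ => ?_
    rw [ec_trz_mul _ _ (mul_mem (natCast_mem _ N) (hzmem j)), htr, mul_zero]
  obtain ⟨t, ht⟩ := hc
  have h1 : algebraMap ℂ K ((finrank (Fz z) K : ℂ) * t) = algebraMap ℂ K 0 := by
    rw [← ec_trz_const, ← ht, h0, map_zero]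
  have h2 := (algebraMap ℂ K).injective h1
  have h3 : (finrank (Fz z) K : ℂ) ≠ 0 := by
    have := hfin
    have h4 : 0 < finrank (Fz z) K := finrank_pos
    exact_mod_cast h4.ne'
  rw [ht, (mul_eq_zero.mp h2).resolve_left h3, map_zero]

section Torus

variable {ξ : Derivation ℂ K K} {r : ℕ} {H : Fin r → Derivation ℂ K K} {c : Fin r → ℝ}

/-- the action of a one-parameter subgroup -/
theorem sum_isW (n : Fin r → ℤ) {m : Fin r → ℤ} {y : K} (hy : IsW H m y) :
    (∑ i, ((n i : ℤ) : ℂ) • H i : Derivation ℂ K K) y = (((∑ i, n i * m i : ℤ) : ℝ) : ℂ) • y := by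
  rw [Pool.Agent.Helper37.SD.der_sum_apply]
  have h1 : ∀ i, (((n i : ℤ) : ℂ) • H i : Derivation ℂ K K) y
      = (((n i : ℤ) : ℂ) * ((m i : ℤ) : ℂ)) • y := by
    intro i
    rw [Derivation.smul_apply, hy i, smul_smul]
  rw [Finset.sum_congr rfl fun i _ => h1 i, ← Finset.sum_smul]
  congr 1
  push_cast
  rfl

theorem xi_isW (hT : Tor R ξ H c) {m : Fin r → ℤ} {y : K} (hy : IsW H m y) :
    ξ y = ((∑ i, c i * m i : ℝ) : ℂ) • y := by
  rw [hT.xi, Pool.Agent.Helper37.SD.der_sum_apply]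
  have h1 : ∀ i, (((c i : ℝ) : ℂ) • H i : Derivation ℂ K K) y
      = (((c i : ℝ) : ℂ) * ((m i : ℤ) : ℂ)) • y := by
    intro i
    rw [Derivation.smul_apply, hy i, smul_smul]
  rw [Finset.sum_congr rfl fun i _ => h1 i, ← Finset.sum_smul]
  congr 1
  push_cast
  rfl

/-- generators which are homogeneous for the torus -/
theorem exists_wgens (hR : IsCone R ξ) (hT : Tor R ξ H c) :
    ∃ (T : Finset K) (m : K → Fin r → ℤ),
      (∀ t ∈ T, t ∈ R ∧ IsW H (m t) t ∧ 0 < ∑ i, c i * m t i) ∧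
        Algebra.adjoin ℂ (T : Set K) = R := by
  classical
  obtain ⟨S, hS⟩ := hR.fg
  have hSR : ∀ s ∈ S, s ∈ R := fun s hs => hS ▸ Algebra.subset_adjoin (by exact_mod_cast hs)
  have h1 : ∀ s : K, ∃ B : Finset K, (↑B ⊆ {y | y ∈ R ∧ ∃ m : Fin r → ℤ, IsW H m y}) ∧
      (s ∈ S → s ∈ Submodule.span ℂ (B : Set K)) := by
    intro s
    by_cases hs : s ∈ S
    · obtain ⟨B, hB, hsB⟩ := Submodule.mem_span_finite_of_mem_span (hT.span s (hSR s hs))
      exact ⟨B, hB, fun _ => hsB⟩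
    · exact ⟨∅, by simp, fun h => absurd h hs⟩
  choose B hB hsB using h1
  have h2 : ∀ y : K, ∃ m : Fin r → ℤ, (∃ m' : Fin r → ℤ, IsW H m' y) → IsW H m y := by
    intro y
    by_cases hy : ∃ m' : Fin r → ℤ, IsW H m' y
    · obtain ⟨m', hm'⟩ := hy
      exact ⟨m', fun _ => hm'⟩
    · exact ⟨0, fun h => absurd h hy⟩
  choose m hm using h2
  refine ⟨(S.biUnion B).filter fun t => ¬ Cst t, m, ?_, le_antisymm ?_ ?_⟩
  · intro t ht
    obtain ⟨ht1, ht2⟩ := Finset.mem_filter.mp ht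
    obtain ⟨s, hs, hts⟩ := Finset.mem_biUnion.mp ht1
    obtain ⟨htR, htm⟩ := hB s (Finset.mem_coe.mpr hts)
    refine ⟨htR, hm t htm, ?_⟩
    have ht0 : t ≠ 0 := fun h => ht2 ⟨0, by rw [h, map_zero]⟩
    have h3 := xi_isW hT (hm t htm)
    rcases (hR.eig_nonneg htR ht0 h3).lt_or_eq with h4 | h4
    · exact h4
    · exfalso
      rw [← h4, Complex.ofReal_zero, zero_smul] at h3
      exact ht2 (hR.const t htR h3)
  · refine Algebra.adjoin_le ?_
    intro t ht
    obtain ⟨ht1, _⟩ := Finset.mem_filter.mp (Finset.mem_coe.mp ht)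
    obtain ⟨s, hs, hts⟩ := Finset.mem_biUnion.mp ht1
    exact (hB s (Finset.mem_coe.mpr hts)).1
  · rw [← hS]
    refine Algebra.adjoin_le ?_
    intro s hs
    have hs' : s ∈ S := Finset.mem_coe.mp hs
    have h3 : Submodule.span ℂ (B s : Set K) ≤ Subalgebra.toSubmodule
        (Algebra.adjoin ℂ (((S.biUnion B).filter fun t => ¬ Cst t : Finset K) : Set K)) := by
      refine Submodule.span_le.mpr ?_
      intro y hy
      by_cases hyc : Cst y
      · obtain ⟨a, ha⟩ := hyc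
        rw [ha]
        exact Subalgebra.algebraMap_mem _ a
      · refine Algebra.subset_adjoin (Finset.mem_coe.mpr (Finset.mem_filter.mpr ⟨?_, hyc⟩))
        exact Finset.mem_biUnion.mpr ⟨s, hs', Finset.mem_coe.mp hy⟩
    exact h3 (hsB s hs')

/-- a one-parameter subgroup with positive weights -/
theorem ncone_of_pos (hR : IsCone R ξ) {T : Finset K} {m : K → Fin r → ℤ}
    (hT : ∀ t ∈ T, t ∈ R ∧ IsW H (m t) t) (hTR : Algebra.adjoin ℂ (T : Set K) = R)
    (n : Fin r → ℤ) (hn : ∀ t ∈ T, 0 < ∑ i, n i * m t i) :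
    NCone R (∑ i, ((n i : ℤ) : ℂ) • H i : Derivation ℂ K K) := by
  classical
  set ζ : Derivation ℂ K K := ∑ i, ((n i : ℤ) : ℂ) • H i with hζ
  have key : ∀ x ∈ R, ∃ a : ℂ, x - algebraMap ℂ K a ∈ RH R ζ (fun b => ∃ k : ℕ, 0 < k ∧ b = k) := by
    intro x hx
    have hx' : x ∈ Algebra.adjoin ℂ (T : Set K) := hTR.symm ▸ hx
    induction hx' using Algebra.adjoin_induction with
    | mem t ht =>
      have ht' : t ∈ T := Finset.mem_coe.mp ht
      obtain ⟨h1, h2⟩ := hT t ht'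
      refine ⟨0, ?_⟩
      rw [map_zero, sub_zero]
      refine mem_hsp (c := ((∑ i, n i * m t i : ℤ) : ℝ)) h1
        ⟨(∑ i, n i * m t i).toNat, ?_, ?_⟩ (sum_isW n h2)
      · have := hn t ht'
        omega
      · have h3 : (((∑ i, n i * m t i).toNat : ℤ) : ℝ) = ((∑ i, n i * m t i : ℤ) : ℝ) := by
          rw [Int.toNat_of_nonneg (hn t ht').le]
        rw [← h3, Int.cast_natCast]
    | algebraMap a => exact ⟨a, by rw [sub_self]; exact Submodule.zero_mem _⟩
    | add x y hx1 hy1 ihx ihy =>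
      obtain ⟨a, ha⟩ := ihx (hTR ▸ hx1)
      obtain ⟨b, hb⟩ := ihy (hTR ▸ hy1)
      refine ⟨a + b, ?_⟩
      have h1 : x + y - algebraMap ℂ K (a + b) = (x - algebraMap ℂ K a) + (y - algebraMap ℂ K b) := by
        rw [map_add]; ring
      rw [h1]
      exact Submodule.add_mem _ ha hb
    | mul x y hx1 hy1 ihx ihy =>
      obtain ⟨a, ha⟩ := ihx (hTR ▸ hx1)
      obtain ⟨b, hb⟩ := ihy (hTR ▸ hy1)
      refine ⟨a * b, ?_⟩
      have h1 : x * y - algebraMap ℂ K (a * b) = (x - algebraMap ℂ K a) * (y - algebraMap ℂ K b) +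
          (a • (y - algebraMap ℂ K b) + b • (x - algebraMap ℂ K a)) := by
        rw [map_mul, Algebra.smul_def, Algebra.smul_def]; ring
      rw [h1]
      refine Submodule.add_mem _ (hsp_mul ?_ ha hb)
        (Submodule.add_mem _ (Submodule.smul_mem _ _ hb) (Submodule.smul_mem _ _ ha))
      rintro _ _ ⟨k, hk, rfl⟩ ⟨l, hl, rfl⟩
      exact ⟨k + l, by omega, by push_cast; rfl⟩
  have hnat : ∀ x ∈ R, x ∈ RH R ζ (fun b => ∃ k : ℕ, b = k) := by
    intro x hx
    obtain ⟨a, ha⟩ := key x hx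
    have h1 : x = (x - algebraMap ℂ K a) + a • (1 : K) := by
      rw [Algebra.smul_def, mul_one, sub_add_cancel]
    rw [h1]
    refine Submodule.add_mem _ (hsp_mono le_rfl ?_ ha)
      (Submodule.smul_mem _ _ (mem_hsp R.one_mem ⟨0, Nat.cast_zero.symm⟩ eig_one))
    rintro b ⟨k, _, hk⟩
    exact ⟨k, hk⟩
  refine { frac := hR.frac, fg := hR.fg, span := ?_, const := ?_, int := ?_ }
  · intro x hx
    refine hsp_mono le_rfl ?_ (hnat x hx)
    rintro b ⟨k, rfl⟩
    exact Nat.cast_nonneg k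
  · intro x hx hx0
    obtain ⟨a, ha⟩ := key x hx
    refine ⟨a, ?_⟩
    by_contra h1
    have h2 : x - algebraMap ℂ K a ≠ 0 := sub_ne_zero.mpr h1
    have h3 : ζ (x - algebraMap ℂ K a) = ((0 : ℝ) : ℂ) • (x - algebraMap ℂ K a) := by
      rw [map_sub, hx0, Derivation.map_algebraMap, sub_zero, Complex.ofReal_zero, zero_smul]
    obtain ⟨k, hk, hk0⟩ := prop_of_mem_hsp h2 h3 ha
    have h4 : (0 : ℝ) < k := Nat.cast_pos.mpr hk
    rw [← hk0] at h4
    exact lt_irrefl _ h4
  · intro x hx hx0 b hb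
    exact prop_of_mem_hsp hx0 hb (hnat x hx)

omit [Field K] [Algebra ℂ K] in
/-- integral approximation of the Reeb field -/
theorem exists_int (T : Finset K) (m : K → Fin r → ℤ) (hT : ∀ t ∈ T, 0 < ∑ i, c i * m t i) :
    ∃ n : Fin r → ℤ, ∀ t ∈ T, 0 < ∑ i, n i * m t i := by
  classical
  obtain ⟨M, hM⟩ : ∃ M : ℕ, ∀ t ∈ T, ∑ i, |((m t i : ℤ) : ℝ)| < M * ∑ i, c i * m t i := by
    have h1 : ∀ t : K, ∃ M : ℕ, t ∈ T → ∀ M' : ℕ, M ≤ M' →
        ∑ i, |((m t i : ℤ) : ℝ)| < M' * ∑ i, c i * m t i := by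
      intro t
      by_cases ht : t ∈ T
      · obtain ⟨M, hM⟩ := exists_nat_gt ((∑ i, |((m t i : ℤ) : ℝ)|) / ∑ i, c i * m t i)
        refine ⟨M, fun _ M' hM' => ?_⟩
        have h2 := (div_lt_iff₀ (hT t ht)).mp hM
        have h3 : (M : ℝ) ≤ M' := Nat.cast_le.mpr hM'
        exact h2.trans_le (mul_le_mul_of_nonneg_right h3 (hT t ht).le)
      · exact ⟨0, fun h => absurd h ht⟩
    choose M hM using h1
    refine ⟨∑ t ∈ T, M t, fun t ht => hM t ht _ ?_⟩
    exact Finset.single_le_sum (f := M) (fun _ _ => Nat.zero_le _) ht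
  refine ⟨fun i => ⌊(M : ℝ) * c i⌋, fun t ht => ?_⟩
  have h1 : (0 : ℝ) < ∑ i, ((⌊(M : ℝ) * c i⌋ : ℤ) : ℝ) * ((m t i : ℤ) : ℝ) := by
    have h2 : ∑ i, ((M : ℝ) * c i - ((⌊(M : ℝ) * c i⌋ : ℤ) : ℝ)) * ((m t i : ℤ) : ℝ) ≤
        ∑ i, |((m t i : ℤ) : ℝ)| := by
      refine Finset.sum_le_sum fun i _ => ?_
      have h3 : 0 ≤ (M : ℝ) * c i - ((⌊(M : ℝ) * c i⌋ : ℤ) : ℝ) :=
        sub_nonneg.mpr (Int.floor_le _)
      have h4 : (M : ℝ) * c i - ((⌊(M : ℝ) * c i⌋ : ℤ) : ℝ) ≤ 1 := by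
        have := Int.lt_floor_add_one ((M : ℝ) * c i)
        linarith
      calc ((M : ℝ) * c i - ((⌊(M : ℝ) * c i⌋ : ℤ) : ℝ)) * ((m t i : ℤ) : ℝ)
          ≤ ((M : ℝ) * c i - ((⌊(M : ℝ) * c i⌋ : ℤ) : ℝ)) * |((m t i : ℤ) : ℝ)| :=
            mul_le_mul_of_nonneg_left (le_abs_self _) h3
        _ ≤ 1 * |((m t i : ℤ) : ℝ)| := mul_le_mul_of_nonneg_right h4 (abs_nonneg _)
        _ = |((m t i : ℤ) : ℝ)| := one_mul _
    have h3 : ∑ i, ((M : ℝ) * c i - ((⌊(M : ℝ) * c i⌋ : ℤ) : ℝ)) * ((m t i : ℤ) : ℝ) =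
        M * ∑ i, c i * m t i - ∑ i, ((⌊(M : ℝ) * c i⌋ : ℤ) : ℝ) * ((m t i : ℤ) : ℝ) := by
      rw [Finset.mul_sum, ← Finset.sum_sub_distrib]
      exact Finset.sum_congr rfl fun i _ => by ring
    have h4 := hM t ht
    linarith
  have h2 : (((∑ i, ⌊(M : ℝ) * c i⌋ * m t i : ℤ)) : ℝ) =
      ∑ i, ((⌊(M : ℝ) * c i⌋ : ℤ) : ℝ) * ((m t i : ℤ) : ℝ) := by push_cast; rfl
  rw [← h2] at h1
  exact_mod_cast h1

end Torus

theorem s_TR : S_TR := by
  intro K _ _ R ξ J a r H c hC hT η hη hinv hcst j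
  classical
  obtain ⟨T, m, hTm, hTR⟩ := exists_wgens hC.toIsCone hT
  obtain ⟨n, hn⟩ := exists_int T m (fun t ht => (hTm t ht).2.2)
  -- one-parameter subgroups
  have key : ∀ n : Fin r → ℤ, (∀ t ∈ T, 0 < ∑ i, n i * m t i) →
      η (∑ i, ((n i : ℤ) : ℂ) • H i) = 0 := by
    intro n hn
    refine one_zero (ncone_of_pos hC.toIsCone (fun t ht => ⟨(hTm t ht).1, (hTm t ht).2.1⟩) hTR n hn)
      hC.normal η hη ?_ ?_
    · intro D
      rw [Pool.Agent.Helper37.SD.der_sum_apply, sum_lie, map_sum]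
      refine Finset.sum_congr rfl fun i _ => ?_
      rw [Derivation.smul_apply, hinv, smul_lie, LinearMap.map_smul_of_tower]
    · choose t ht using hcst
      refine ⟨∑ i, ((n i : ℤ) : ℂ) * t i, ?_⟩
      rw [map_sum, map_sum]
      refine Finset.sum_congr rfl fun i _ => ?_
      rw [LinearMap.map_smul_of_tower, ht, map_mul, Algebra.smul_def]
  obtain ⟨L, hL⟩ : ∃ L : ℤ, ∀ t ∈ T, |m t j| < L := by
    refine ⟨∑ t ∈ T, |m t j| + 1, fun t ht => ?_⟩
    have := Finset.single_le_sum (f := fun t => |m t j|) (fun _ _ => abs_nonneg _) ht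
    omega
  have h1 := key n hn
  have h2 := key (fun i => L * n i + if i = j then 1 else 0) (by
    intro t ht
    have h3 : ∑ i, (L * n i + if i = j then 1 else 0) * m t i =
        L * ∑ i, n i * m t i + m t j := by
      have h4 : ∀ i, (L * n i + if i = j then 1 else 0) * m t i =
          L * (n i * m t i) + if i = j then m t i else 0 := by
        intro i
        split_ifs <;> ring
      rw [Finset.sum_congr rfl fun i _ => h4 i, Finset.sum_add_distrib, ← Finset.mul_sum,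
        Finset.sum_ite_eq' Finset.univ j, if_pos (Finset.mem_univ j)]
    rw [h3]
    have h4 := hn t ht
    have h5 := hL t ht
    have h6 : -|m t j| ≤ m t j := neg_abs_le _
    have h7 : 0 < L := (abs_nonneg _).trans_lt h5
    nlinarith)
  have h3 : (∑ i, (((L * n i + if i = j then 1 else 0 : ℤ)) : ℂ) • H i : Derivation ℂ K K) =
      (L : ℂ) • (∑ i, ((n i : ℤ) : ℂ) • H i : Derivation ℂ K K) + H j := by
    have h4 : ∀ i, (((L * n i + if i = j then 1 else 0 : ℤ)) : ℂ) • H i =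
        (L : ℂ) • ((n i : ℤ) : ℂ) • H i + if i = j then H i else 0 := by
      intro i
      split_ifs
      · push_cast
        rw [add_smul, mul_smul, one_smul]
      · push_cast
        rw [add_smul, mul_smul, zero_smul]
    rw [Finset.sum_congr rfl fun i _ => h4 i, Finset.sum_add_distrib, ← Finset.smul_sum,
      Finset.sum_ite_eq' Finset.univ j, if_pos (Finset.mem_univ j)]
  rw [h3, map_add, LinearMap.map_smul_of_tower, h1, smul_zero, zero_add] at h2
  exact h2

end Pool.Agent.Helper34.D4
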