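import Pool.Agent.Helper34.D4.Hv
import Pool.Agent.Helper88.D4.Stmts2

/-!
# Project D4, case A with (TOR): the end

`s` is homogeneous for the torus, of positive degree `k`, with reduced divisor; `η` is an invariant
1-form with simple poles along `s = 0` and residues `c0 u = ∑ γ i u (φ i)`.  If all `u (φ i)` are
equal on the zeros of `s`, then `η - t dlog s` is regular and vanishes on the torus (`s_TR`), so
`t k = 0` and `η` vanishes on the torus.  Otherwise `s ^ (M - m) = F₁ F₂` with `F₁ = s ^ M / φ` and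
`F₂ = φ / s ^ m`, and `a (M - m) ≤ 4 deg F_i`.
-/

set_option autoImplicit false

namespace Pool.Agent.Helper34.D4

open Module Pool.Agent.Helper37.SD Pool.Agent.Helper20.TS Pool.Agent.Helper88.D4

variable {K : Type} [Field K] [Algebra ℂ K] {R : Subalgebra ℂ K} {ξ : Derivation ℂ K K}
  {J : Bra K} {a : ℝ} {r : ℕ} {H : Fin r → Derivation ℂ K K} {c : Fin r → ℝ}

theorem val_zpow (u : RVal K) {x : K} (hx : x ≠ 0) (n : ℤ) : u.val (x ^ n) = n * u.val x := by
  obtain ⟨k, rfl | rfl⟩ := n.eq_nat_or_neg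
  · rw [zpow_natCast, u.val_pow hx, Int.cast_natCast]
  · rw [zpow_neg, zpow_natCast, u.val_inv (pow_ne_zero k hx), u.val_pow hx, Int.cast_neg,
      Int.cast_natCast, neg_mul]

theorem IsW_zpow {x : K} {m : Fin r → ℤ} (hx0 : x ≠ 0) (hx : IsW H m x) (n : ℤ) :
    IsW H (n • m) (x ^ n) := by
  obtain ⟨k, rfl | rfl⟩ := n.eq_nat_or_neg
  · rw [zpow_natCast]
    exact IsW_pow hx k
  · rw [zpow_neg, zpow_natCast, neg_smul]
    exact IsW_inv (pow_ne_zero k hx0) (IsW_pow hx k)

theorem pres_H (hT : Tor R ξ H c) (i : Fin r) : Pres R (H i) := by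
  intro x hx
  have h1 := hT.span x hx
  induction h1 using Submodule.span_induction with
  | mem y hy =>
    obtain ⟨hyR, m, hm⟩ := hy
    rw [hm i]
    exact R.smul_mem hyR _
  | zero => rw [map_zero]; exact R.zero_mem
  | add x y hx' hy' ihx ihy =>
    have e1 : x ∈ R := (Submodule.span_le.mpr (fun y hy => hy.1) :
      Submodule.span ℂ {y | y ∈ R ∧ ∃ m : Fin r → ℤ, IsW H m y} ≤ RS R) hx'
    have e2 : y ∈ R := (Submodule.span_le.mpr (fun y hy => hy.1) :
      Submodule.span ℂ {y | y ∈ R ∧ ∃ m : Fin r → ℤ, IsW H m y} ≤ RS R) hy'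
    rw [map_add]
    exact R.add_mem (ihx e1) (ihy e2)
  | smul z x hx' ih =>
    have e1 : x ∈ R := (Submodule.span_le.mpr (fun y hy => hy.1) :
      Submodule.span ℂ {y | y ∈ R ∧ ∃ m : Fin r → ℤ, IsW H m y} ≤ RS R) hx'
    rw [Derivation.map_smul]
    exact R.smul_mem (ih e1) _

/-- the estimate for a prime divisor -/
theorem pdiv_le (hT0 : S_T0) (hLD : S_LDpd) {v : RVal K} {V : ℝ} (hC : Cone4 R ξ J a)
    (hM : IsMin R ξ J v a V) {u : RVal K} (hu : PDiv R u) {F : K} (hF : F ∈ R) (hF0 : F ≠ 0)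
    {δ : ℝ} (hd : ξ F = (δ : ℂ) • F) : a * u.val F ≤ 4 * δ := by
  have h1 := (hT0 K R ξ J v a V hC hM u 1 hu.nonneg (hLD K R ξ J a hC u hu)).2 F δ hF hF0 hd
  linarith

/-- Case A, after the dichotomy of `S_RES`. -/
theorem an_core (hT0 : S_T0) (hLD : S_LDpd) (hREG : S_REG) {v : RVal K} {V : ℝ}
    (hC : Cone4 R ξ J a) (hM : IsMin R ξ J v a V) (hT : Tor R ξ H c) {s : K} (hs : s ∈ R)
    (hs0 : s ≠ 0) {χ : Fin r → ℤ} (hsχ : IsW H χ s) (hk : 0 < ∑ i, c i * χ i)
    (hred : ∀ u, PDiv R u → u.val s = 0 ∨ u.val s = 1) (η : Pool.Agent.Helper88.D4.One K)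
    (hinv : ∀ i D, H i (η D) = η ⁅H i, D⁆) (hcst : ∀ i, Cst (η (H i))) (hξ : η ξ = 0)
    {j : Fin r} (hj : η (H j) ≠ 0) (c0 : RVal K → ℂ)
    (hc0 : ∀ u, PDiv R u → ∀ D, Pres R D → u.Ge 0 (η D - c0 u • (D s / s)))
    (hdich : (∀ u u', PDiv R u → PDiv R u' → u.val s = 1 → u'.val s = 1 → c0 u = c0 u') ∨
      ∃ φ : K, φ ≠ 0 ∧ (∀ u, PDiv R u → u.val s = 0 → u.val φ = 0) ∧
        ∃ u u', PDiv R u ∧ PDiv R u' ∧ u.val s = 1 ∧ u'.val s = 1 ∧ u.val φ ≠ u'.val φ) :
    a ≤ 2 * ∑ i, c i * χ i := by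
  classical
  have hR : IsCone R ξ := hC.toIsCone
  rcases hdich with hcase | ⟨f, hf0, hφ, u1, u2, hu1, hu2, hu1s, hu2s, hne⟩
  · -- all residues are equal
    exfalso
    obtain ⟨t, ht⟩ : ∃ t : ℂ, ∀ u, PDiv R u → u.val s = 1 → c0 u = t := by
      by_cases hex : ∃ u, PDiv R u ∧ u.val s = 1
      · obtain ⟨u0, hu0, hu0s⟩ := hex
        exact ⟨c0 u0, fun u hu hus => hcase u u0 hu hu0 hus hu0s⟩
      · exact ⟨0, fun u hu hus => absurd ⟨u, hu, hus⟩ hex⟩
    -- the form `η - t dlog s`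
    let lam : Pool.Agent.Helper88.D4.One K := (algebraMap ℂ K t / s) • evd s
    have hlam : ∀ D, lam D = t • (D s / s) := by
      intro D
      show (algebraMap ℂ K t / s) * D s = _
      rw [Algebra.smul_def]
      ring
    have hreg : Reg1 R (η - lam) := by
      refine (hREG K R ξ J a hC (η - lam)).2 ?_
      intro u hu x hx y hy z hz
      have hP : Pres R (J x y z) := fun w hw => hC.reg w hw x hx y hy z hz
      rw [LinearMap.sub_apply, hlam]
      rcases hred u hu with hus | hus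
      · -- `s` is a unit at `u`
        have h1 := hc0 u hu _ hP
        have h2 : u.Ge 0 (J x y z s / s) := by
          have h3 : u.Ge 0 (J x y z s) := by
            by_cases h0 : J x y z s = 0
            · exact Or.inl h0
            · exact Or.inr (hu.nonneg _ (hP s hs) h0)
          rcases h3 with h3 | h3
          · left
            rw [h3, zero_div]
          · by_cases h0 : J x y z s = 0
            · left
              rw [h0, zero_div]
            · right
              rw [u.val_div h0 hs0, hus, sub_zero]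
              exact h3
        have e : η (J x y z) - t • (J x y z s / s) =
            (η (J x y z) - c0 u • (J x y z s / s)) + (c0 u - t) • (J x y z s / s) := by
          rw [sub_smul]
          abel
        rw [e]
        exact u.ge_add h1 (u.ge_smul _ h2)
      · rw [← ht u hu hus]
        exact hc0 u hu _ hP
    have hlamH : ∀ i, lam (H i) = algebraMap ℂ K (t * (χ i : ℂ)) := by
      intro i
      rw [hlam, hsχ i, smul_div_assoc, div_self hs0, Algebra.smul_def, Algebra.smul_def, mul_one,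
        map_mul]
    have hTR := s_TR K R ξ J a r H c hC hT (η - lam) hreg (by
      intro i D
      rw [LinearMap.sub_apply, LinearMap.sub_apply, map_sub, hinv i D, hlam, hlam]
      congr 1
      rw [Derivation.map_smul, Derivation.commutator_apply, der_div (H i) _ s hs0, hsχ i]
      congr 1
      rw [Derivation.map_smul]
      rw [Algebra.smul_def, Algebra.smul_def]
      field_simp
      try ring) (by
      intro i
      obtain ⟨b, hb⟩ := hcst i
      exact ⟨b - t * (χ i : ℂ), by rw [LinearMap.sub_apply, hb, hlamH i, map_sub]⟩)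
    have hη : ∀ i, η (H i) = algebraMap ℂ K (t * (χ i : ℂ)) := by
      intro i
      have h1 := hTR i
      rw [LinearMap.sub_apply, sub_eq_zero] at h1
      rw [h1, hlamH i]
    have h1 : algebraMap ℂ K (t * ((∑ i, c i * χ i : ℝ) : ℂ)) = algebraMap ℂ K 0 := by
      have h2 : η ξ = ∑ i, (c i : ℂ) • η (H i) := by
        rw [hT.xi, map_sum]
        exact Finset.sum_congr rfl fun i _ => LinearMap.map_smul_of_tower _ _ _
      have e0 : ((∑ i, c i * χ i : ℝ) : ℂ) = ∑ i, (c i : ℂ) * (χ i : ℂ) := by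
        push_cast
        rfl
      rw [map_zero, ← hξ, h2, e0, Finset.mul_sum, map_sum]
      refine Finset.sum_congr rfl fun i _ => ?_
      rw [hη i, Algebra.smul_def, ← map_mul]
      congr 1
      ring
    have h2 := (algebraMap ℂ K).injective h1
    have h3 : t = 0 := (mul_eq_zero.mp h2).resolve_right (by exact_mod_cast hk.ne')
    apply hj
    rw [hη j, h3, zero_mul, map_zero]
  · -- two different values
    obtain ⟨⟨mf, hmf⟩, ⟨N, hN⟩, ⟨N', hN'⟩⟩ := isW_of_supp hR hC.normal hT hs hs0 hsχ hf0 hφ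
    -- the values are bounded
    have hlow : ∀ u, PDiv R u → u.val s = 1 → -(N : ℝ) ≤ u.val f := by
      intro u hu hus
      have h1 := hu.nonneg _ hN (mul_ne_zero hf0 (pow_ne_zero N hs0))
      rw [u.map_mul _ _ hf0 (pow_ne_zero N hs0), u.val_pow hs0, hus, mul_one] at h1
      linarith
    have hup : ∀ u, PDiv R u → u.val s = 1 → u.val f ≤ N' := by
      intro u hu hus
      have h1 := hu.nonneg _ hN' (mul_ne_zero (inv_ne_zero hf0) (pow_ne_zero N' hs0))
      rw [u.map_mul _ _ (inv_ne_zero hf0) (pow_ne_zero N' hs0), u.val_pow hs0, hus, mul_one,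
        u.val_inv hf0] at h1
      linarith
    -- minimum and maximum
    have hmin : ∃ m : ℤ, (∃ u, PDiv R u ∧ u.val s = 1 ∧ u.val f = m) ∧
        ∀ u, PDiv R u → u.val s = 1 → (m : ℝ) ≤ u.val f := by
      obtain ⟨n1, hn1⟩ := hu1.int f hf0
      obtain ⟨m, hm1, hm2⟩ := Int.exists_least_of_bdd
        (P := fun m : ℤ => ∃ u, PDiv R u ∧ u.val s = 1 ∧ u.val f = m)
        ⟨-(N : ℤ), by
          rintro z ⟨u, hu, hus, huz⟩
          have h1 := hlow u hu hus
          rw [huz] at h1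
          exact_mod_cast h1⟩ ⟨n1, u1, hu1, hu1s, hn1⟩
      refine ⟨m, hm1, fun u hu hus => ?_⟩
      obtain ⟨n, hn⟩ := hu.int f hf0
      rw [hn]
      exact_mod_cast hm2 n ⟨u, hu, hus, hn⟩
    have hmax : ∃ m : ℤ, (∃ u, PDiv R u ∧ u.val s = 1 ∧ u.val f = m) ∧
        ∀ u, PDiv R u → u.val s = 1 → u.val f ≤ (m : ℝ) := by
      obtain ⟨n1, hn1⟩ := hu1.int f hf0
      obtain ⟨m, hm1, hm2⟩ := Int.exists_greatest_of_bdd
        (P := fun m : ℤ => ∃ u, PDiv R u ∧ u.val s = 1 ∧ u.val f = m)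
        ⟨(N' : ℤ), by
          rintro z ⟨u, hu, hus, huz⟩
          have h1 := hup u hu hus
          rw [huz] at h1
          exact_mod_cast h1⟩ ⟨n1, u1, hu1, hu1s, hn1⟩
      refine ⟨m, hm1, fun u hu hus => ?_⟩
      obtain ⟨n, hn⟩ := hu.int f hf0
      rw [hn]
      exact_mod_cast hm2 n ⟨u, hu, hus, hn⟩
    obtain ⟨m, ⟨um, hum, hums, humf⟩, hm⟩ := hmin
    obtain ⟨M, ⟨uM, huM, huMs, huMf⟩, hMx⟩ := hmax
    have hmM : m < M := by
      have h1 : (m : ℝ) < M := by
        rcases lt_or_gt_of_ne hne with h | h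
        · exact (hm u1 hu1 hu1s).trans_lt (h.trans_le (hMx u2 hu2 hu2s))
        · exact (hm u2 hu2 hu2s).trans_lt (h.trans_le (hMx u1 hu1 hu1s))
      exact_mod_cast h1
    have hsM : ∀ n : ℤ, s ^ n ≠ 0 := fun n => zpow_ne_zero n hs0
    -- the two factors
    have hF1 : s ^ M * f⁻¹ ∈ R := by
      by_contra hcon
      obtain ⟨u, hu, hux⟩ := Pool.Agent.Helper11.D4.s_EX1 K R hR.frac hR.fg hC.normal _ hcon
      rw [u.map_mul _ _ (hsM M) (inv_ne_zero hf0), val_zpow u hs0, u.val_inv hf0] at hux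
      rcases hred u hu with hus | hus
      · rw [hus, hφ u hu hus] at hux
        linarith
      · have := hMx u hu hus
        rw [hus] at hux
        linarith
    have hF2 : f * s ^ (-m) ∈ R := by
      by_contra hcon
      obtain ⟨u, hu, hux⟩ := Pool.Agent.Helper11.D4.s_EX1 K R hR.frac hR.fg hC.normal _ hcon
      rw [u.map_mul _ _ hf0 (hsM (-m)), val_zpow u hs0, Int.cast_neg] at hux
      rcases hred u hu with hus | hus
      · have h1 : u.val f = 0 := hφ u hu hus
        rw [hus, h1] at hux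
        linarith
      · have := hm u hu hus
        rw [hus] at hux
        linarith
    have hF10 : s ^ M * f⁻¹ ≠ 0 := mul_ne_zero (hsM M) (inv_ne_zero hf0)
    have hF20 : f * s ^ (-m) ≠ 0 := mul_ne_zero hf0 (hsM (-m))
    have hw1 := xi_isW hT (IsW_mul (IsW_zpow hs0 hsχ M) (IsW_inv hf0 hmf))
    have hw2 := xi_isW hT (IsW_mul hmf (IsW_zpow hs0 hsχ (-m)))
    have h1 := pdiv_le hT0 hLD hC hM hum hF1 hF10 hw1
    have h2 := pdiv_le hT0 hLD hC hM huM hF2 hF20 hw2
    rw [um.map_mul _ _ (hsM M) (inv_ne_zero hf0), val_zpow um hs0, um.val_inv hf0, hums,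
      humf] at h1
    rw [uM.map_mul _ _ hf0 (hsM (-m)), val_zpow uM hs0, huMs, huMf, Int.cast_neg] at h2
    have e1 : ∑ i, c i * ((M • χ + -mf) i : ℤ) = M * ∑ i, c i * χ i - ∑ i, c i * mf i := by
      rw [Finset.mul_sum, ← Finset.sum_sub_distrib]
      refine Finset.sum_congr rfl fun i _ => ?_
      simp only [Pi.add_apply, Pi.smul_apply, Pi.neg_apply, smul_eq_mul]
      push_cast
      ring
    have e2 : ∑ i, c i * ((mf + (-m) • χ) i : ℤ) = ∑ i, c i * mf i - m * ∑ i, c i * χ i := by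
      rw [Finset.mul_sum, ← Finset.sum_sub_distrib]
      refine Finset.sum_congr rfl fun i _ => ?_
      simp only [Pi.add_apply, Pi.smul_apply, smul_eq_mul]
      push_cast
      ring
    rw [e1] at h1
    rw [e2] at h2
    have hMm : (0 : ℝ) < M - m := by
      have : (m : ℝ) < M := by exact_mod_cast hmM
      linarith
    have h3 : (M - m : ℝ) * a ≤ (M - m : ℝ) * (2 * ∑ i, c i * χ i) := by
      nlinarith
    exact le_of_mul_le_mul_left h3 hMm

/-- Case A, after (TOR). -/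
theorem an_end (hT0 : S_T0) (hLD : S_LDpd) (hREG : S_REG) {v : RVal K} {V : ℝ}
    (hC : Cone4 R ξ J a) (hM : IsMin R ξ J v a V) (hT : Tor R ξ H c) {s : K} (hs : s ∈ R)
    (hs0 : s ≠ 0) {χ : Fin r → ℤ} (hsχ : IsW H χ s) (hk : 0 < ∑ i, c i * χ i)
    (hred : ∀ u, PDiv R u → u.val s = 0 ∨ u.val s = 1) (η : Pool.Agent.Helper88.D4.One K)
    (hinv : ∀ i D, H i (η D) = η ⁅H i, D⁆) (hcst : ∀ i, Cst (η (H i))) (hξ : η ξ = 0)
    {j : Fin r} (hj : η (H j) ≠ 0) (c0 : RVal K → ℂ)
    (hc0 : ∀ u, PDiv R u → ∀ D, Pres R D → u.Ge 0 (η D - c0 u • (D s / s)))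
    {p : ℕ} (φ : Fin p → K) (γ : Fin p → ℂ) (hφ0 : ∀ i, φ i ≠ 0)
    (hφ : ∀ u, PDiv R u → u.val s = 0 → ∀ i, u.val (φ i) = 0)
    (hcφ : ∀ u, PDiv R u → u.val s = 1 → c0 u = ∑ i, γ i * (u.val (φ i) : ℂ)) :
    a ≤ 2 * ∑ i, c i * χ i := by
  refine an_core hT0 hLD hREG hC hM hT hs hs0 hsχ hk hred η hinv hcst hξ hj c0 hc0 ?_
  by_cases hcase : ∀ i, ∀ u, PDiv R u → u.val s = 1 → ∀ u', PDiv R u' → u'.val s = 1 →
      u.val (φ i) = u'.val (φ i)
  · left
    intro u u' hu hu' hus hus'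
    rw [hcφ u hu hus, hcφ u' hu' hus']
    exact Finset.sum_congr rfl fun i _ => by rw [hcase i u hu hus u' hu' hus']
  · right
    simp only [not_forall] at hcase
    obtain ⟨i, u1, hu1, hu1s, u2, hu2, hu2s, hne⟩ := hcase
    exact ⟨φ i, hφ0 i, fun u hu hus => hφ u hu hus i, u1, u2, hu1, hu2, hu1s, hu2s, hne⟩

end Pool.Agent.Helper34.D4
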